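import Pool.Agent.Helper44.GN.Defs

/-!
# MP_d210aa_gt, module MLS2: the modified logarithmic Sobolev inequality in the variable `Y`
-/

open Finset MeasureTheory Filter Topology Matrix
open scoped ENNReal ContDiff

namespace Pool.Agent.Helper44.GN

open Pool.Agent.Helper44.GF

theorem mls2_meas (n : ℕ) (δ : ℝ) : MeasurableSet (Bx n δ) :=
  MeasurableSet.univ_pi fun _ => measurableSet_Icc

theorem mls2_IB {n : ℕ} {δ : ℝ} {ρ ρ' f f' : (Fin n → ℝ) → ℝ}
    (h : ∀ z ∈ Bx n δ, f z * ρ z = f' z * ρ' z) : IB δ ρ f = IB δ ρ' f' := by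
  unfold IB
  exact setIntegral_congr_fun (mls2_meas n δ) h

theorem mls2_IBmul {n : ℕ} {δ : ℝ} {ρ f : (Fin n → ℝ) → ℝ} (c : ℝ) :
    IB δ ρ (fun z => c * f z) = c * IB δ ρ f := by
  unfold IB
  rw [← integral_const_mul]
  congr 1
  funext z
  ring

theorem mls2_pos {n : ℕ} {δ : ℝ} (hδ : 0 < δ) {z : Fin n → ℝ} (hz : z ∈ Bx n δ) : z ∈ Og n := by
  intro x
  have := hz x (Set.mem_univ x)
  exact lt_of_lt_of_le hδ this.1

theorem mls2_Yv {n : ℕ} {α a δ : ℝ} (hy : ST_YD) (hP : Pm α a δ) {z : Fin n → ℝ}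
    (hz : z ∈ Og n) : Yv α a z ∈ Og n := by
  intro x
  have := (hy α a hP.al hP.au hP.a0 (z x) (hz x)).1
  show 0 < yy α a (z x)
  linarith

theorem mls2_Ycont {n : ℕ} {α a : ℝ} : ContDiffOn ℝ 2 (fun z : Fin n → ℝ => Yv α a z) (Og n) := by
  rw [contDiffOn_pi]
  intro x
  unfold Yv yy
  refine contDiffOn_const.add (contDiffOn_const.mul ?_)
  refine ContDiffOn.rpow_const_of_ne ?_ ?_
  · exact (contDiff_apply ℝ ℝ x).contDiffOn
  · intro z hz
    exact (hz x).ne'

theorem mls2_update {n : ℕ} {α a : ℝ} (z : Fin n → ℝ) (x : Fin n) (s : ℝ) :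
    Yv α a (Function.update z x s) = Function.update (Yv α a z) x (yy α a s) := by
  funext y
  unfold Yv
  by_cases h : y = x
  · subst h
    simp
  · simp [h]

theorem mls2_qcont {n m : ℕ} (V : Matrix (Fin n) (Fin m) ℝ) :
    Continuous fun y : Fin n → ℝ => qf V y := by
  unfold qf TT
  exact ((continuous_const.matrix_mul continuous_id.matrix_diagonal).matrix_mul
    continuous_const).matrix_det

theorem st_MLS2 (h1 : ST_MLSI) (h2 : ST_TAY) (h3 : ST_LCX) (h4 : ST_YD) (h5 : ST_PJP) :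
    ST_MLS2 := by
  intro n m V α a δ g E hV hP hg hE
  have hδ0 := hP.d0
  have hδ1 : δ < 1 := by linarith [hP.d1]
  have hα0 : 0 < α := by linarith [hP.al]
  have hYO : ∀ z ∈ Og n, Yv α a z ∈ Og n := fun z hz => mls2_Yv h4 hP hz
  have hBO : ∀ z ∈ Bx n δ, z ∈ Og n := fun z hz => mls2_pos hδ0 hz
  have hq : ∀ z ∈ Og n, 0 < qf V (Yv α a z) := fun z hz => (h5 n m V hV _ (hYO z hz)).1
  have hfs : ContDiffOn ℝ 2 (fun z => g (Yv α a z)) (Og n) :=
    hg.sm.comp mls2_Ycont hYO
  have hder : ∀ z ∈ Og n, ∀ x, HasDerivAt (fun s => g (Yv α a (Function.update z x s)))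
      (-(4 / α * ss α a (z x) / z x) * E x (Yv α a z)) (z x) := by
    intro z hz x
    have hY := h4 α a hP.al hP.au hP.a0 (z x) (hz x)
    have e1 := hg.der (Yv α a z) (hYO z hz) x
    have e2 := hY.2.2.2.1
    have e3 : Yv α a z x = yy α a (z x) := rfl
    rw [e3] at e1
    have e4 := HasDerivAt.comp (z x) e1 e2
    have e5 : (fun s => g (Yv α a (Function.update z x s)))
        = (fun s => g (Function.update (Yv α a z) x s)) ∘ yy α a := by
      funext s
      show g (Yv α a (Function.update z x s)) = g (Function.update (Yv α a z) x (yy α a s))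
      rw [mls2_update]
    rw [e5]
    have e6 : yy α a (z x) ≠ 0 := by linarith [hY.1]
    have e7 : z x ≠ 0 := (hz x).ne'
    have e8 : E x (Yv α a z) / yy α a (z x) * -(4 / α * ss α a (z x) * yy α a (z x) / z x)
        = -(4 / α * ss α a (z x) / z x) * E x (Yv α a z) := by
      field_simp
    rw [e8] at e4
    exact e4
  obtain ⟨hDc, C, hC0, hC⟩ := h2 n δ hδ0 hδ1 (fun z => g (Yv α a z)) hfs
    (fun x z => -(4 / α * ss α a (z x) / z x) * E x (Yv α a z)) hder
  have hLH : LH δ (fun z => (qf V (Yv α a z)) ^ (1 / 2 : ℝ)) (fun z => g (Yv α a z))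
      (fun x z => -(4 / α * ss α a (z x) / z x) * E x (Yv α a z)) C := by
    refine ⟨hδ0, hδ1, hC0, ?_, ?_, ?_, ?_, hDc, hC, ?_⟩
    · refine ContinuousOn.rpow_const ?_ ?_
      · refine (mls2_qcont V).comp_continuousOn ?_
        exact mls2_Ycont.continuousOn.mono hBO
      · intro z hz
        left
        exact (hq z (hBO z hz)).ne'
    · intro z hz
      exact Real.rpow_pos_of_pos (hq z (hBO z hz)) _
    · intro u hu v hv t s ht hs hts
      have e1 := h3 n m V α a δ hV hP u hu v hv t s ht hs hts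
      have e2 := hq u (hBO u hu)
      have e3 := hq v (hBO v hv)
      have e4 : t • u + s • v ∈ Og n := by
        intro x
        have a1 := hBO u hu x
        have a2 := hBO v hv x
        have a3 := mul_pos ht a1
        have a4 := mul_pos hs a2
        show 0 < t * u x + s * v x
        linarith
      have e5 := hq _ e4
      show (qf V (Yv α a (t • u + s • v))) ^ (1 / 2 : ℝ)
        ≤ ((qf V (Yv α a u)) ^ (1 / 2 : ℝ)) ^ t * ((qf V (Yv α a v)) ^ (1 / 2 : ℝ)) ^ s
      calc (qf V (Yv α a (t • u + s • v))) ^ (1 / 2 : ℝ)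
          ≤ (qf V (Yv α a u) ^ t * qf V (Yv α a v) ^ s) ^ (1 / 2 : ℝ) :=
            Real.rpow_le_rpow e5.le e1 (by norm_num)
        _ = ((qf V (Yv α a u)) ^ (1 / 2 : ℝ)) ^ t * ((qf V (Yv α a v)) ^ (1 / 2 : ℝ)) ^ s := by
            rw [Real.mul_rpow (Real.rpow_nonneg e2.le _) (Real.rpow_nonneg e3.le _),
              ← Real.rpow_mul e2.le, ← Real.rpow_mul e3.le, ← Real.rpow_mul e2.le,
              ← Real.rpow_mul e3.le, mul_comm t, mul_comm s]
    · exact hfs.continuousOn.mono hBO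
    · intro z hz x
      have hzx := hBO z hz x
      have hY := h4 α a hP.al hP.au hP.a0 (z x) hzx
      have e1 := hE z hz x
      have e2 : -(z x * (-(4 / α * ss α a (z x) / z x) * E x (Yv α a z)))
          = 4 / α * (ss α a (z x) * E x (Yv α a z)) := by
        field_simp
      have e3 : ss α a (z x) * E x (Yv α a z) ≤ 1 / 2 := by
        have b1 : ss α a (z x) * E x (Yv α a z) ≤ ss α a (z x) * (1 / 2) :=
          mul_le_mul_of_nonneg_left e1 hY.2.1.le
        linarith [hY.2.2.1]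
      have e4 : 0 ≤ 4 / α := by positivity
      have e5 : 4 / α * (ss α a (z x) * E x (Yv α a z)) ≤ 4 / α * (1 / 2) :=
        mul_le_mul_of_nonneg_left e3 e4
      have e6 : 4 / α * (1 / 2) ≤ 101 / 50 := by
        rw [div_mul_eq_mul_div, div_le_iff₀ hα0]
        linarith [hP.al]
      show -(z x * (-(4 / α * ss α a (z x) / z x) * E x (Yv α a z))) ≤ 101 / 50
      rw [e2]
      exact e5.trans e6
  have key := h1 n δ _ _ _ C hLH
  have hrho : ∀ z ∈ Bx n δ, wz z / (qf V (Yv α a z)) ^ (1 / 2 : ℝ) = rho V α a z := by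
    intro z hz
    unfold rho
    rw [Real.rpow_neg (hq z (hBO z hz)).le, div_eq_mul_inv]
  have hEn : En δ (fun z => wz z / (qf V (Yv α a z)) ^ (1 / 2 : ℝ)) (fun z => g (Yv α a z))
      = En δ (rho V α a) (fun z => g (Yv α a z)) := by
    unfold En
    rw [mls2_IB (f := fun z => g (Yv α a z) * Real.exp (g (Yv α a z))) (ρ' := rho V α a)
        (f' := fun z => g (Yv α a z) * Real.exp (g (Yv α a z)))
        (fun z hz => by rw [hrho z hz]),
      mls2_IB (f := fun z => Real.exp (g (Yv α a z))) (ρ' := rho V α a)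
        (f' := fun z => Real.exp (g (Yv α a z))) (fun z hz => by rw [hrho z hz]),
      mls2_IB (f := fun _ => (1 : ℝ)) (ρ' := rho V α a)
        (f' := fun _ => (1 : ℝ)) (fun z hz => by rw [hrho z hz])]
  rw [hEn] at key
  refine key.trans (le_of_eq ?_)
  have hsum : IB δ (fun z => wz z / (qf V (Yv α a z)) ^ (1 / 2 : ℝ))
      (fun z => Real.exp (g (Yv α a z)) * ∑ x, (z x
        * (-(4 / α * ss α a (z x) / z x) * E x (Yv α a z))) ^ 2)
      = IB δ (rho V α a) (fun z => (16 / α ^ 2) * (Real.exp (g (Yv α a z))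
          * ∑ x, (ss α a (z x) * E x (Yv α a z)) ^ 2)) := by
    refine mls2_IB ?_
    intro z hz
    have hs : ∑ x, (z x * (-(4 / α * ss α a (z x) / z x) * E x (Yv α a z))) ^ 2
        = 16 / α ^ 2 * ∑ x, (ss α a (z x) * E x (Yv α a z)) ^ 2 := by
      rw [Finset.mul_sum]
      refine Finset.sum_congr rfl fun x _ => ?_
      have hzx := hBO z hz x
      have : z x ≠ 0 := hzx.ne'
      field_simp
      ring
    show (Real.exp (g (Yv α a z)) * (∑ x, (z x
        * (-(4 / α * ss α a (z x) / z x) * E x (Yv α a z))) ^ 2))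
        * (wz z / (qf V (Yv α a z)) ^ (1 / 2 : ℝ))
      = 16 / α ^ 2 * (Real.exp (g (Yv α a z))
          * ∑ x, (ss α a (z x) * E x (Yv α a z)) ^ 2) * rho V α a z
    rw [hrho z hz, hs]
    ring
  rw [hsum, mls2_IBmul]
  ring

end Pool.Agent.Helper44.GN
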